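import Pool.Agent.H28.MCL.Targets
import Pool.Agent.H27.T2.Block

/-!
# The support of the local sign (row BLA of mlc_modules)
-/

set_option autoImplicit false

open Pool.Agent.H28.MCL Finset Filter

namespace Pool.Agent.H16.MCL

open Pool.Agent.H27.T2 (bl bi bl_eq)

open Classical in
/-- The support of the local sign. -/
theorem bla : T_BLA := by
  intro f κ Q c h o x y hh ho hx
  have hhR : (0 : ℝ) < h := by exact_mod_cast hh
  set A := (Icc x y).filter (fun n => Bad f κ Q c h n ∧ n ≡ o [MOD h]) with hA
  -- pairs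
  set B := A.filter (fun n => n + h ≤ y) with hB
  have hpair : ∑ n ∈ B, ∑ i ∈ range h, (1 : ℝ) / ((n + 1 + i : ℕ) : ℝ) ≤
      ∑ m ∈ (Icc x y).filter (fun m => lc f κ Q c h o m ≠ 0), (1 : ℝ) / m := by
    rw [← Finset.sum_product']
    have hinj : Set.InjOn (fun z : ℕ × ℕ => z.1 + 1 + z.2) (B ×ˢ range h : Finset (ℕ × ℕ)) := by
      rintro ⟨a, i⟩ ha ⟨b, j⟩ hb hab
      rw [mem_coe, mem_product, mem_range, hB, mem_filter, hA, mem_filter] at ha hb
      simp only at ha hb hab
      have e1 := bl_eq (m := a + 1 + i) hh ho ha.1.1.2.2 (by omega) (by omega)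
      have e2 := bl_eq (m := b + 1 + j) hh ho hb.1.1.2.2 (by omega) (by omega)
      rw [hab] at e1
      have : a = b := e1.1.symm.trans e2.1
      subst this
      have : i = j := by omega
      rw [this]
    have := Finset.sum_image (f := fun m : ℕ => (1 : ℝ) / (m : ℝ)) hinj
    rw [← this]
    apply Finset.sum_le_sum_of_subset_of_nonneg
    · intro m hm
      rw [mem_image] at hm
      obtain ⟨⟨n, i⟩, hni, rfl⟩ := hm
      rw [mem_product, mem_range, hB, mem_filter, hA, mem_filter, mem_Icc] at hni
      simp only at hni ⊢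
      obtain ⟨e1, e2⟩ := bl_eq (m := n + 1 + i) hh ho hni.1.1.2.2 (by omega) (by omega)
      rw [mem_filter, mem_Icc]
      refine ⟨⟨by omega, by omega⟩, ?_⟩
      unfold lc
      rw [e1, if_pos ⟨by omega, e2, hni.1.1.2.1⟩]
      split_ifs <;> norm_num
    · intro i _ _
      positivity
  -- compare each window
  have hwin : ∀ n ∈ B, (h : ℝ) * (1 / n) ≤ ∑ i ∈ range h, (1 : ℝ) / ((n + 1 + i : ℕ) : ℝ) +
      h * (1 / n - 1 / ((n + h : ℕ) : ℝ)) := by
    intro n hn
    rw [hB, mem_filter, hA, mem_filter, mem_Icc] at hn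
    have hnR : (0 : ℝ) < n := by
      have : 0 < n := by omega
      exact_mod_cast this
    have h1 : (h : ℝ) * (1 / ((n + h : ℕ) : ℝ)) ≤
        ∑ i ∈ range h, (1 : ℝ) / ((n + 1 + i : ℕ) : ℝ) := by
      have : ∑ i ∈ range h, (1 : ℝ) / ((n + h : ℕ) : ℝ) ≤
          ∑ i ∈ range h, (1 : ℝ) / ((n + 1 + i : ℕ) : ℝ) := by
        apply Finset.sum_le_sum
        intro i hi
        rw [mem_range] at hi
        apply one_div_le_one_div_of_le
        · push_cast
          positivity
        · exact_mod_cast (show n + 1 + i ≤ n + h by omega)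
      simpa using this
    linarith
  have hsumB : (h : ℝ) * ∑ n ∈ B, (1 : ℝ) / n ≤
      ∑ m ∈ (Icc x y).filter (fun m => lc f κ Q c h o m ≠ 0), (1 : ℝ) / m +
        h * ∑ n ∈ B, ((1 : ℝ) / n - 1 / ((n + h : ℕ) : ℝ)) := by
    have := Finset.sum_le_sum hwin
    rw [Finset.sum_add_distrib, ← Finset.mul_sum, ← Finset.mul_sum] at this
    linarith
  -- telescoping
  have htel : ∑ n ∈ B, ((1 : ℝ) / n - 1 / ((n + h : ℕ) : ℝ)) ≤ 1 := by
    set A' := (Icc x y).filter (fun n => n ≡ o [MOD h]) with hA'
    have t1 : ∑ n ∈ B, ((1 : ℝ) / n - 1 / ((n + h : ℕ) : ℝ)) ≤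
        ∑ n ∈ A', ((1 : ℝ) / n - 1 / ((n + h : ℕ) : ℝ)) := by
      apply Finset.sum_le_sum_of_subset_of_nonneg
      · intro n hn
        rw [hB, mem_filter, hA, mem_filter] at hn
        rw [hA', mem_filter]
        exact ⟨hn.1.1, hn.1.2.2⟩
      · intro n hn _
        rw [hA', mem_filter, mem_Icc] at hn
        have hnR : (0 : ℝ) < n := by
          have : 0 < n := by omega
          exact_mod_cast this
        rw [sub_nonneg]
        apply one_div_le_one_div_of_le hnR
        push_cast
        linarith
    refine t1.trans ?_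
    rw [Finset.sum_sub_distrib, ← Finset.sum_filter_add_sum_filter_not A' (fun n => n < x + h)]
    have t2 : ∑ n ∈ A'.filter (fun n => n < x + h), (1 : ℝ) / n ≤ 1 := by
      have hc : (A'.filter (fun n => n < x + h)).card ≤ 1 := by
        rw [Finset.card_le_one]
        intro a ha b hb
        rw [mem_filter, hA', mem_filter, mem_Icc] at ha hb
        have h3 : a - x ≡ b - x [MOD h] := by
          apply Nat.ModEq.add_right_cancel' x
          rw [Nat.sub_add_cancel ha.1.1.1, Nat.sub_add_cancel hb.1.1.1]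
          exact ha.1.2.trans hb.1.2.symm
        have h4 : (a - x) % h = (b - x) % h := h3
        rw [Nat.mod_eq_of_lt (by omega), Nat.mod_eq_of_lt (by omega)] at h4
        omega
      calc _ ≤ ∑ n ∈ A'.filter (fun n => n < x + h), (1 : ℝ) := by
            apply Finset.sum_le_sum
            intro n hn
            rw [mem_filter, hA', mem_filter, mem_Icc] at hn
            have : (1 : ℝ) ≤ n := by
              have : 1 ≤ n := by omega
              exact_mod_cast this
            rw [div_le_one (by linarith)]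
            exact this
        _ = ((A'.filter (fun n => n < x + h)).card : ℝ) := by simp
        _ ≤ 1 := by exact_mod_cast hc
    have t3 : ∑ n ∈ A'.filter (fun n => ¬ n < x + h), (1 : ℝ) / n ≤
        ∑ n ∈ A', (1 : ℝ) / ((n + h : ℕ) : ℝ) := by
      have hinj : Set.InjOn (fun n => n - h) (A'.filter (fun n => ¬ n < x + h) : Finset ℕ) := by
        intro a ha b hb hab
        rw [mem_coe, mem_filter] at ha hb
        simp only at hab
        omega
      have e1 := Finset.sum_image (f := fun n : ℕ => (1 : ℝ) / ((n + h : ℕ) : ℝ)) hinj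
      have e2 : ∑ n ∈ A'.filter (fun n => ¬ n < x + h), (1 : ℝ) / n =
          ∑ n ∈ A'.filter (fun n => ¬ n < x + h), (1 : ℝ) / ((n - h + h : ℕ) : ℝ) := by
        apply Finset.sum_congr rfl
        intro n hn
        rw [mem_filter] at hn
        rw [Nat.sub_add_cancel (by omega)]
      rw [e2, ← e1]
      apply Finset.sum_le_sum_of_subset_of_nonneg
      · intro n hn
        rw [mem_image] at hn
        obtain ⟨m, hm, rfl⟩ := hn
        rw [mem_filter, hA', mem_filter, mem_Icc] at hm
        rw [hA', mem_filter, mem_Icc]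
        refine ⟨⟨by omega, by omega⟩, ?_⟩
        have h5 : m - h + h ≡ o + h [MOD h] := by
          rw [Nat.sub_add_cancel (by omega)]
          exact hm.1.2.trans (by simp [Nat.ModEq])
        exact Nat.ModEq.add_right_cancel' _ h5
      · intro i _ _
        positivity
    linarith
  -- the last window
  have hlast : ∑ n ∈ A.filter (fun n => ¬ n + h ≤ y), (1 : ℝ) / n ≤ 1 := by
    have hc : (A.filter (fun n => ¬ n + h ≤ y)).card ≤ 1 := by
      rw [Finset.card_le_one]
      intro a ha b hb
      rw [mem_filter, hA, mem_filter, mem_Icc] at ha hb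
      have h3 : a - (y + 1 - h) ≡ b - (y + 1 - h) [MOD h] := by
        apply Nat.ModEq.add_right_cancel' (y + 1 - h)
        rw [Nat.sub_add_cancel (by omega), Nat.sub_add_cancel (by omega)]
        exact ha.1.2.2.trans hb.1.2.2.symm
      have h4 : (a - (y + 1 - h)) % h = (b - (y + 1 - h)) % h := h3
      rw [Nat.mod_eq_of_lt (by omega), Nat.mod_eq_of_lt (by omega)] at h4
      omega
    calc _ ≤ ∑ n ∈ A.filter (fun n => ¬ n + h ≤ y), (1 : ℝ) := by
          apply Finset.sum_le_sum
          intro n hn
          rw [mem_filter, hA, mem_filter, mem_Icc] at hn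
          have : (1 : ℝ) ≤ n := by
            have : 1 ≤ n := by omega
            exact_mod_cast this
          rw [div_le_one (by linarith)]
          exact this
      _ = ((A.filter (fun n => ¬ n + h ≤ y)).card : ℝ) := by simp
      _ ≤ 1 := by exact_mod_cast hc
  have hsplit : ∑ n ∈ A, (1 : ℝ) / n =
      ∑ n ∈ B, (1 : ℝ) / n + ∑ n ∈ A.filter (fun n => ¬ n + h ≤ y), (1 : ℝ) / n := by
    rw [hB, Finset.sum_filter_add_sum_filter_not]
  rw [hsplit, mul_add]
  nlinarith

end Pool.Agent.H16.MCL
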